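import Pool.Agent.Helper74.WB.St

set_option autoImplicit false

namespace Pool.Agent.Helper62.WB

open Pool.Agent.Helper74 Pool.Agent.Helper74.WB

private theorem qw_enc {Λ : Type} (w : List ((Λ × Bool) × Bool)) : QW (w.flatMap enc) := by
  intro a ha
  rw [List.mem_flatMap] at ha
  obtain ⟨b, -, hb⟩ := ha
  unfold enc at hb
  rcases b with ⟨x, o⟩
  cases o
  · simp only [Bool.false_eq_true, if_false, List.mem_cons, List.not_mem_nil, or_false] at hb
    rcases hb with rfl | rfl <;> rfl
  · simp only [if_true, List.mem_cons, List.not_mem_nil, or_false] at hb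
    subst hb
    rfl

private theorem qw_map {Λ Λ' : Type} (e : Λ → Λ') (w : List ((Λ × Bool) × Bool)) (h : QW w) :
    QW (w.map (rl e)) := by
  intro a ha
  rw [List.mem_map] at ha
  obtain ⟨b, hb, rfl⟩ := ha
  exact h b hb

private theorem pw_ne (a : (ℕ × Bool) × Bool) : pw a ≠ [] := by
  unfold pw
  rcases a with ⟨⟨i, s⟩, o⟩
  cases s <;> simp

private theorem enc_ne {Λ : Type} (a : (Λ × Bool) × Bool) : enc a ≠ [] := by
  unfold enc
  simp

theorem hTOP (hENC : StENC) (hREL : StREL) (hPA1 : StPA1) (hTRA : StTRA) (hTRB : StTRB) : StTOP := by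
  intro Λ hΛ
  obtain ⟨e, he⟩ := exists_injective_nat (Λ × Bool)
  refine ⟨fun a => ((enc a).map (rl e)).flatMap pw, ?_, ?_⟩
  · intro a h
    have h1 := enc_ne a
    cases hh : enc a with
    | nil => exact h1 hh
    | cons b l =>
      simp only [hh, List.map_cons, List.flatMap_cons, List.append_eq_nil_iff] at h
      exact pw_ne _ h.1
  · intro w
    have e1 : (w.flatMap fun a => ((enc a).map (rl e)).flatMap pw) =
        ((w.flatMap enc).map (rl e)).flatMap pw := by
      rw [List.map_flatMap, List.flatMap_assoc]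
    rw [e1]
    have hq : QW ((w.flatMap enc).map (rl e)) := qw_map e _ (qw_enc w)
    rw [hENC Λ w, hREL (Λ × Bool) ℕ e he]
    constructor
    · exact hPA1 _ hq
    · intro h
      have h1 := (hTRA _ h).2 0
      rw [hTRB _ hq] at h1
      exact (hREL ℕ ℤ (fun n => (n : ℤ)) Nat.cast_injective _).2 h1

end Pool.Agent.Helper62.WB
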